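import Mathlib
import Pool.Agent.Helper822.FranklWilson

set_option autoImplicit false

namespace Pool.Agent.Results.MP_701da7_co.MatchingCounterexample

open Pool.Agent.Helper822.FranklWilson

/-- The set `D(K)` of diameters of `K`: the unordered pairs of (distinct) points of `K` whose
distance is the diameter of `K`. -/
def Diameters {d : ℕ} (K : Set (EuclideanSpace ℝ (Fin d))) :
    Set (Sym2 (EuclideanSpace ℝ (Fin d))) :=
  {e | ∃ x ∈ K, ∃ y ∈ K, e = s(x, y) ∧ x ≠ y ∧ dist x y = Metric.diam K}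

/-- `(K, A)` is general: there is `ε > 0` such that each family `δ t : A → ℝ`, `t ∈ [0,1)`, with
`δ 0 = 0`, with `sup_A |δ t| < ε` for all `t`, and continuous in `t` for the sup norm, is realised
by maps `φ t : K → ℝ^d` with `φ 0 = id`, continuous in `t` for the sup norm, such that
`|φ t x - φ t y| = |x - y| + δ t {x, y}` for all `{x, y} ∈ A`. -/
def IsGeneral {d : ℕ} (K : Set (EuclideanSpace ℝ (Fin d)))
    (A : Set (Sym2 (EuclideanSpace ℝ (Fin d)))) : Prop :=
  ∃ ε > (0 : ℝ), ∀ δ : ℝ → Sym2 (EuclideanSpace ℝ (Fin d)) → ℝ,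
    (∀ e ∈ A, δ 0 e = 0) →
    (∀ t ∈ Set.Ico (0 : ℝ) 1, ∃ c < ε, ∀ e ∈ A, |δ t e| ≤ c) →
    (∀ t₀ ∈ Set.Ico (0 : ℝ) 1, ∀ η > (0 : ℝ), ∃ κ > (0 : ℝ), ∀ t ∈ Set.Ico (0 : ℝ) 1,
      |t - t₀| < κ → ∀ e ∈ A, |δ t e - δ t₀ e| ≤ η) →
    ∃ φ : ℝ → EuclideanSpace ℝ (Fin d) → EuclideanSpace ℝ (Fin d),
      (∀ x ∈ K, φ 0 x = x) ∧
      (∀ t₀ ∈ Set.Ico (0 : ℝ) 1, ∀ η > (0 : ℝ), ∃ κ > (0 : ℝ), ∀ t ∈ Set.Ico (0 : ℝ) 1,
        |t - t₀| < κ → ∀ x ∈ K, dist (φ t x) (φ t₀ x) ≤ η) ∧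
      ∀ t ∈ Set.Ico (0 : ℝ) 1, ∀ x ∈ K, ∀ y ∈ K, s(x, y) ∈ A →
        dist (φ t x) (φ t y) = dist x y + δ t s(x, y)

/-- `K` can be partitioned into `m` sets of smaller diameter. -/
def CanBePartitioned {d : ℕ} (K : Set (EuclideanSpace ℝ (Fin d))) (m : ℕ) : Prop :=
  ∃ S : Fin m → Set (EuclideanSpace ℝ (Fin d)),
    (∀ i j, i ≠ j → Disjoint (S i) (S j)) ∧ K = ⋃ i, S i ∧
      ∀ i, Metric.diam (S i) < Metric.diam K

/-- A set in which each point lies in at most one diameter is general. -/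
theorem isGeneral_of_matching {d : ℕ} (K : Set (EuclideanSpace ℝ (Fin d)))
    (hD : 0 < Metric.diam K)
    (hu : ∀ x ∈ K, ∀ y ∈ K, ∀ z ∈ K, dist x y = Metric.diam K → dist x z = Metric.diam K → y = z) :
    IsGeneral K (Diameters K) := by
  classical
  refine ⟨Metric.diam K, hD, fun δ h0 hb hc => ?_⟩
  set D := Metric.diam K with hDdef
  let π : EuclideanSpace ℝ (Fin d) → EuclideanSpace ℝ (Fin d) := fun x =>
    if h : ∃ y ∈ K, dist x y = D then h.choose else x
  have hπ : ∀ x ∈ K, ∀ y ∈ K, dist x y = D → π x = y := by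
    intro x hx y hy hxy
    have h : ∃ y ∈ K, dist x y = D := ⟨y, hy, hxy⟩
    have h1 : π x = h.choose := dif_pos h
    rw [h1]
    exact hu x hx _ h.choose_spec.1 y hy h.choose_spec.2 hxy
  have hπ' : ∀ x ∈ K, (s(x, π x) ∈ Diameters K ∧ dist x (π x) = D) ∨ π x = x := by
    intro x hx
    by_cases h : ∃ y ∈ K, dist x y = D
    · left
      have h1 : π x = h.choose := dif_pos h
      have h2 := h.choose_spec
      rw [← h1] at h2
      refine ⟨⟨x, hx, π x, h2.1, rfl, ?_, h2.2⟩, h2.2⟩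
      intro heq
      rw [← heq, dist_self] at h2
      exact hD.ne h2.2
    · right
      exact dif_neg h
  refine ⟨fun t x => x + (δ t s(x, π x) / (2 * D)) • (x - π x), ?_, ?_, ?_⟩
  · intro x hx
    rcases hπ' x hx with h | h
    · simp [h0 _ h.1]
    · simp [h]
  · intro t₀ ht₀ η hη
    obtain ⟨κ, hκ, hk⟩ := hc t₀ ht₀ η hη
    refine ⟨κ, hκ, fun t ht htt x hx => ?_⟩
    rcases hπ' x hx with h | h
    · have h1 := hk t ht htt _ h.1
      rw [dist_eq_norm]
      have h2 : x + (δ t s(x, π x) / (2 * D)) • (x - π x) -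
          (x + (δ t₀ s(x, π x) / (2 * D)) • (x - π x)) =
          ((δ t s(x, π x) - δ t₀ s(x, π x)) / (2 * D)) • (x - π x) := by
        rw [sub_div, sub_smul]
        abel
      rw [h2, norm_smul, ← dist_eq_norm, h.2, Real.norm_eq_abs, abs_div,
        abs_of_pos (by positivity : 0 < 2 * D)]
      have h3 : |δ t s(x, π x) - δ t₀ s(x, π x)| / (2 * D) * D =
          |δ t s(x, π x) - δ t₀ s(x, π x)| / 2 := by
        field_simp
      rw [h3]
      linarith
    · simp only [h, sub_self, smul_zero, add_zero, dist_self]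
      exact hη.le
  · intro t ht x hx y hy hxy
    have hd : dist x y = D := by
      obtain ⟨x', hx', y', hy', he, hne, hd⟩ := hxy
      rcases Sym2.eq_iff.mp he with ⟨rfl, rfl⟩ | ⟨rfl, rfl⟩
      · exact hd
      · rw [dist_comm]; exact hd
    have h1 := hπ x hx y hy hd
    have h2 := hπ y hy x hx (by rw [dist_comm]; exact hd)
    simp only [h1, h2]
    obtain ⟨c, hcD, hcb⟩ := hb t ht
    have h3 := hcb _ hxy
    have h4 := (abs_le.mp h3).1
    rw [dist_eq_norm, Sym2.eq_swap (a := y) (b := x)]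
    have h5 : x + (δ t s(x, y) / (2 * D)) • (x - y) - (y + (δ t s(x, y) / (2 * D)) • (y - x)) =
        (1 + δ t s(x, y) / D) • (x - y) := by
      have h6 : δ t s(x, y) / D = δ t s(x, y) / (2 * D) + δ t s(x, y) / (2 * D) := by
        field_simp
        ring
      rw [h6]
      module
    rw [h5, norm_smul, ← dist_eq_norm, hd, Real.norm_eq_abs]
    have h7 : 0 < 1 + δ t s(x, y) / D := by
      have : -1 < δ t s(x, y) / D := by
        rw [lt_div_iff₀ hD]
        linarith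
      linarith
    rw [abs_of_pos h7]
    field_simp

/-! ### The example -/

/-- The points of the example have coordinates `124 v` and `s (ε_a ε_b)` with a sign vector `ε`. -/
noncomputable def pt (s v : ℝ) (z : Fin 122 → Bool) : EuclideanSpace ℝ (Fin (124 * 124 + 1)) :=
  WithLp.toLp 2 (Fin.cons (124 * v) (fun k : Fin (124 * 124) =>
    s * (sg ℝ (ext z (finProdFinEquiv.symm k).1) * sg ℝ (ext z (finProdFinEquiv.symm k).2))))

theorem pt_dist (s v s' v' : ℝ) (z w : Fin 122 → Bool) :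
    dist (pt s v z) (pt s' v' w) ^ 2 =
      124 ^ 2 * ((v - v') ^ 2 + s ^ 2 + s' ^ 2) - 2 * (s * s') * ip ℝ (ext z) (ext w) ^ 2 := by
  rw [EuclideanSpace.dist_eq, Real.sq_sqrt (by positivity), Fin.sum_univ_succ]
  simp only [pt, Fin.cons_zero, Fin.cons_succ, Real.dist_eq, sq_abs]
  rw [← finProdFinEquiv.sum_comp, Fintype.sum_prod_type]
  simp only [Equiv.symm_apply_apply]
  have h1 : ∀ a b : Fin 124, (s * (sg ℝ (ext z a) * sg ℝ (ext z b)) -
      s' * (sg ℝ (ext w a) * sg ℝ (ext w b))) ^ 2 =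
      (s ^ 2 + s' ^ 2) - 2 * (s * s') * ((sg ℝ (ext z a) * sg ℝ (ext w a)) *
        (sg ℝ (ext z b) * sg ℝ (ext w b))) := by
    intro a b
    have e1 := sg_mul_self ℝ (ext z a)
    have e2 := sg_mul_self ℝ (ext z b)
    have e3 := sg_mul_self ℝ (ext w a)
    have e4 := sg_mul_self ℝ (ext w b)
    linear_combination (s ^ 2 * (sg ℝ (ext z b) * sg ℝ (ext z b))) * e1 + s ^ 2 * e2 +
      (s' ^ 2 * (sg ℝ (ext w b) * sg ℝ (ext w b))) * e3 + s' ^ 2 * e4
  simp only [h1, Finset.sum_sub_distrib, ← Finset.mul_sum, ← Finset.sum_mul, Finset.sum_const,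
    Finset.card_univ, Fintype.card_fin, nsmul_eq_mul]
  unfold ip
  push_cast
  ring

/-- height function -/
noncomputable def vv (u : ℝ) : ℝ := Real.sqrt (Real.sqrt 2 * u - u ^ 2)

/-- coefficient of the cut vector -/
noncomputable def sc (b : Bool) (u : ℝ) : ℝ := if b then 1 - u else -(Real.sqrt 2 - 1 - u)

/-- signed height -/
noncomputable def hc (b : Bool) (u : ℝ) : ℝ := if b then vv u else -vv u

/-- the points of the example -/
noncomputable def P (b : Bool) (u : ℝ) (z : Fin 122 → Bool) :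
    EuclideanSpace ℝ (Fin (124 * 124 + 1)) := pt (sc b u) (hc b u) z

/-- The example: for each of the `2 ^ 122` sign vectors two arcs, without the endpoint `u = 0`. -/
def K : Set (EuclideanSpace ℝ (Fin (124 * 124 + 1))) :=
  {p | ∃ b u z, 0 < u ∧ u ≤ 1 / 4 ∧ p = P b u z}

theorem sqrt2 : (1.41 : ℝ) < Real.sqrt 2 ∧ Real.sqrt 2 < 1.42 ∧ Real.sqrt 2 ^ 2 = 2 := by
  refine ⟨?_, ?_, Real.sq_sqrt (by norm_num)⟩
  · rw [Real.lt_sqrt (by norm_num)]; norm_num
  · rw [Real.sqrt_lt' (by norm_num)]; norm_num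

theorem vv_sq {u : ℝ} (h0 : 0 < u) (h1 : u ≤ 1 / 4) :
    0 ≤ vv u ∧ vv u ^ 2 = Real.sqrt 2 * u - u ^ 2 := by
  refine ⟨Real.sqrt_nonneg _, Real.sq_sqrt ?_⟩
  nlinarith [sqrt2.1]

theorem ip_sq_self (z : Fin 122 → Bool) : ip ℝ (ext z) (ext z) ^ 2 = 124 ^ 2 := by
  unfold ip
  simp only [sg_mul_self, Finset.sum_const, Finset.card_univ, Fintype.card_fin, nsmul_eq_mul]
  norm_num

theorem ip_sq_lt {z w : Fin 122 → Bool} (h : z ≠ w) : ip ℝ (ext z) (ext w) ^ 2 < 124 ^ 2 := by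
  obtain ⟨h1, h2⟩ := ip_ext_lt z w h
  have h3 : ip ℝ (ext z) (ext w) < 124 := by rw [ip_cast]; exact_mod_cast h1
  have h4 : -124 < ip ℝ (ext z) (ext w) := by
    rw [ip_cast]
    have : ((-124 : ℤ) : ℝ) < ((ip ℤ (ext z) (ext w) : ℤ) : ℝ) := by exact_mod_cast h2
    simpa using this
  exact sq_lt_sq' h4 h3

/-- the core estimate: opposite types -/
theorem opposite {u u' : ℝ} (g : ℝ) (h0 : 0 < u) (h1 : u ≤ 1 / 4) (h0' : 0 < u')
    (h1' : u' ≤ 1 / 4) :
    124 ^ 2 * ((vv u + vv u') ^ 2 + (1 - u) ^ 2 + (Real.sqrt 2 - 1 - u') ^ 2)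
      + 2 * ((1 - u) * (Real.sqrt 2 - 1 - u')) * g ≤ 124 ^ 2 * (2 - (u - u') ^ 2)
        - 2 * ((1 - u) * (Real.sqrt 2 - 1 - u')) * (124 ^ 2 - g) := by
  obtain ⟨a1, a2, a3⟩ := sqrt2
  obtain ⟨b1, b2⟩ := vv_sq h0 h1
  obtain ⟨c1, c2⟩ := vv_sq h0' h1'
  have h5 : (vv u + vv u') ^ 2 ≤ 2 * (vv u ^ 2 + vv u' ^ 2) := by
    nlinarith [sq_nonneg (vv u - vv u')]
  rw [b2, c2] at h5
  have h6 : (vv u + vv u') ^ 2 + (1 - u) ^ 2 + (Real.sqrt 2 - 1 - u') ^ 2
      + 2 * ((1 - u) * (Real.sqrt 2 - 1 - u')) ≤ 2 - (u - u') ^ 2 := by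
    have e : (1 - u) ^ 2 + (Real.sqrt 2 - 1 - u') ^ 2
      + 2 * ((1 - u) * (Real.sqrt 2 - 1 - u')) = 2 - 2 * (Real.sqrt 2 * u - u ^ 2) -
        2 * (Real.sqrt 2 * u' - u' ^ 2) - (u - u') ^ 2 := by
      linear_combination a3
    linarith only [e, h5]
  linarith only [h6]

theorem concl {L u u' c g : ℝ} (h : L ≤ 124 ^ 2 * (2 - (u - u') ^ 2) - 2 * c * (124 ^ 2 - g))
    (hc : 0 < c) (hg : g ≤ 124 ^ 2) :
    L ≤ 2 * 124 ^ 2 ∧ (L = 2 * 124 ^ 2 → u' = u ∧ ¬ g < 124 ^ 2) := by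
  have h1 : 0 ≤ 2 * c * (124 ^ 2 - g) := by
    have := sub_nonneg.mpr hg
    positivity
  have h2 := sq_nonneg (u - u')
  refine ⟨by linarith only [h, h1, h2], fun hL => ?_⟩
  rw [hL] at h
  have h3 : (u - u') ^ 2 ≤ 0 := by linarith only [h, h1]
  have h4 : u - u' = 0 := by
    have := le_antisymm h3 h2
    exact pow_eq_zero_iff (two_ne_zero) |>.mp this
  refine ⟨by linarith only [h4], fun hlt => ?_⟩
  have h5 : 0 < 2 * c * (124 ^ 2 - g) := by
    have := sub_pos.mpr hlt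
    positivity
  linarith only [h, h5, h2]

theorem dist_P {b b' : Bool} {u u' : ℝ} {z w : Fin 122 → Bool} (h0 : 0 < u) (h1 : u ≤ 1 / 4)
    (h0' : 0 < u') (h1' : u' ≤ 1 / 4) :
    dist (P b u z) (P b' u' w) ^ 2 ≤ 2 * 124 ^ 2 ∧
      (dist (P b u z) (P b' u' w) ^ 2 = 2 * 124 ^ 2 → b' = !b ∧ u' = u ∧ w = z) := by
  obtain ⟨a1, a2, a3⟩ := sqrt2
  obtain ⟨b1, b2⟩ := vv_sq h0 h1
  obtain ⟨c1, c2⟩ := vv_sq h0' h1'
  have hg0 : 0 ≤ ip ℝ (ext z) (ext w) ^ 2 := sq_nonneg _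
  have hg1 : ip ℝ (ext z) (ext w) ^ 2 ≤ 124 ^ 2 := by
    by_cases h : z = w
    · rw [h, ip_sq_self]
    · exact (ip_sq_lt h).le
  have hpos : 0 < (1 - u) * (Real.sqrt 2 - 1 - u') := by
    apply mul_pos <;> linarith
  have hpos' : 0 < (1 - u') * (Real.sqrt 2 - 1 - u) := by
    apply mul_pos <;> linarith
  cases b <;> cases b'
  · -- both lower
    have h : dist (P false u z) (P false u' w) ^ 2 < 2 * 124 ^ 2 := by
      unfold P
      rw [pt_dist]
      simp only [sc, hc, Bool.false_eq_true, if_false]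
      have e1 : 0 ≤ 2 * (-(Real.sqrt 2 - 1 - u) * -(Real.sqrt 2 - 1 - u')) *
          ip ℝ (ext z) (ext w) ^ 2 := by
        have : 0 ≤ (-(Real.sqrt 2 - 1 - u) * -(Real.sqrt 2 - 1 - u')) := by
          rw [neg_mul_neg]
          apply mul_nonneg <;> linarith
        positivity
      have e2 : (-vv u - -vv u') ^ 2 + (-(Real.sqrt 2 - 1 - u)) ^ 2 +
          (-(Real.sqrt 2 - 1 - u')) ^ 2 < 2 := by
        have e3 : (-vv u - -vv u') ^ 2 + (-(Real.sqrt 2 - 1 - u)) ^ 2 +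
          (-(Real.sqrt 2 - 1 - u')) ^ 2 = 6 - 4 * Real.sqrt 2 + (2 - Real.sqrt 2) * (u + u')
            - 2 * (vv u * vv u') := by
          linear_combination b2 + c2 + 2 * a3
        have e4 := mul_nonneg b1 c1
        have e5 : (2 - Real.sqrt 2) * (u + u') ≤ (2 - Real.sqrt 2) * (1 / 2) := by
          apply mul_le_mul_of_nonneg_left <;> linarith only [a2, h1, h1']
        rw [e3]
        linarith only [e4, e5, a1]
      linarith only [e1, e2]
    exact ⟨h.le, fun h' => absurd h' h.ne⟩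
  · -- lower, upper
    unfold P
    rw [pt_dist]
    simp only [sc, hc, Bool.false_eq_true, if_false, if_true, Bool.not_false, true_and]
    have e := concl (opposite (ip ℝ (ext z) (ext w) ^ 2) h0' h1' h0 h1) hpos' hg1
    have e4 : 124 ^ 2 * ((-vv u - vv u') ^ 2 + (-(Real.sqrt 2 - 1 - u)) ^ 2 + (1 - u') ^ 2) -
        2 * (-(Real.sqrt 2 - 1 - u) * (1 - u')) * ip ℝ (ext z) (ext w) ^ 2 =
        124 ^ 2 * ((vv u' + vv u) ^ 2 + (1 - u') ^ 2 + (Real.sqrt 2 - 1 - u) ^ 2)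
          + 2 * ((1 - u') * (Real.sqrt 2 - 1 - u)) * ip ℝ (ext z) (ext w) ^ 2 := by ring
    rw [e4]
    refine ⟨e.1, fun h => ⟨(e.2 h).1.symm, ?_⟩⟩
    by_contra hzw
    exact (e.2 h).2 (ip_sq_lt (fun h => hzw h.symm))
  · -- upper, lower
    unfold P
    rw [pt_dist]
    simp only [sc, hc, Bool.false_eq_true, if_false, if_true, Bool.not_true, true_and]
    have e := concl (opposite (ip ℝ (ext z) (ext w) ^ 2) h0 h1 h0' h1') hpos hg1
    have e4 : 124 ^ 2 * ((vv u - -vv u') ^ 2 + (1 - u) ^ 2 + (-(Real.sqrt 2 - 1 - u')) ^ 2) -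
        2 * ((1 - u) * -(Real.sqrt 2 - 1 - u')) * ip ℝ (ext z) (ext w) ^ 2 =
        124 ^ 2 * ((vv u + vv u') ^ 2 + (1 - u) ^ 2 + (Real.sqrt 2 - 1 - u') ^ 2)
          + 2 * ((1 - u) * (Real.sqrt 2 - 1 - u')) * ip ℝ (ext z) (ext w) ^ 2 := by ring
    rw [e4]
    refine ⟨e.1, fun h => ⟨(e.2 h).1, ?_⟩⟩
    by_contra hzw
    exact (e.2 h).2 (ip_sq_lt (fun h => hzw h.symm))
  · -- both upper
    have h : dist (P true u z) (P true u' w) ^ 2 < 2 * 124 ^ 2 := by
      unfold P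
      rw [pt_dist]
      simp only [sc, hc, if_true]
      have e1 : 0 ≤ 2 * ((1 - u) * (1 - u')) * ip ℝ (ext z) (ext w) ^ 2 := by
        have : 0 ≤ (1 - u) * (1 - u') := by
          apply mul_nonneg <;> linarith
        positivity
      have e2 : (vv u - vv u') ^ 2 + (1 - u) ^ 2 + (1 - u') ^ 2 < 2 := by
        have e3 : (vv u - vv u') ^ 2 + (1 - u) ^ 2 + (1 - u') ^ 2 =
            2 - (2 - Real.sqrt 2) * (u + u') - 2 * (vv u * vv u') := by
          linear_combination b2 + c2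
        have e4 := mul_nonneg b1 c1
        have e5 : 0 < (2 - Real.sqrt 2) * (u + u') := by
          apply mul_pos <;> linarith only [a2, h0, h0']
        rw [e3]
        linarith only [e4, e5]
      linarith only [e1, e2]
    exact ⟨h.le, fun h' => absurd h' h.ne⟩

theorem dist_partner (b : Bool) {u : ℝ} (z : Fin 122 → Bool) (h0 : 0 < u) (h1 : u ≤ 1 / 4) :
    dist (P b u z) (P (!b) u z) ^ 2 = 2 * 124 ^ 2 := by
  obtain ⟨a1, a2, a3⟩ := sqrt2
  obtain ⟨b1, b2⟩ := vv_sq h0 h1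
  unfold P
  rw [pt_dist, ip_sq_self]
  cases b <;> simp only [sc, hc, Bool.false_eq_true, if_false, if_true, Bool.not_false,
    Bool.not_true] <;> linear_combination (4 * 124 ^ 2 : ℝ) * b2 + (124 ^ 2 : ℝ) * a3

theorem dist_le {p q : EuclideanSpace ℝ (Fin (124 * 124 + 1))} (hp : p ∈ K) (hq : q ∈ K) :
    dist p q ≤ Real.sqrt (2 * 124 ^ 2) := by
  obtain ⟨b, u, z, h0, h1, rfl⟩ := hp
  obtain ⟨b', u', w, h0', h1', rfl⟩ := hq
  exact Real.le_sqrt_of_sq_le (dist_P h0 h1 h0' h1').1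

theorem bdd_K : Bornology.IsBounded K :=
  Metric.isBounded_iff.mpr ⟨_, fun _ hp _ hq => dist_le hp hq⟩

theorem mem_K (b : Bool) {u : ℝ} (z : Fin 122 → Bool) (h0 : 0 < u) (h1 : u ≤ 1 / 4) :
    P b u z ∈ K := ⟨b, u, z, h0, h1, rfl⟩

theorem diam_K : Metric.diam K = Real.sqrt (2 * 124 ^ 2) := by
  apply le_antisymm
  · exact Metric.diam_le_of_forall_dist_le (Real.sqrt_nonneg _) fun _ hp _ hq => dist_le hp hq
  · have h := Metric.dist_le_diam_of_mem bdd_K
      (mem_K true (fun _ => false) (by norm_num : (0:ℝ) < 1 / 4) le_rfl)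
      (mem_K (!true) (fun _ => false) (by norm_num : (0:ℝ) < 1 / 4) le_rfl)
    refine le_trans ?_ h
    rw [← dist_partner true (u := 1/4) (fun _ => false) (by norm_num) le_rfl,
      Real.sqrt_sq dist_nonneg]

theorem diam_pos : 0 < Metric.diam K := by
  rw [diam_K]; positivity

theorem diam_sq : Metric.diam K ^ 2 = 2 * 124 ^ 2 := by
  rw [diam_K, Real.sq_sqrt (by norm_num)]

theorem unique_partner {p : EuclideanSpace ℝ (Fin (124 * 124 + 1))} (hp : p ∈ K) :
    ∃! q, q ∈ K ∧ dist p q = Metric.diam K := by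
  obtain ⟨b, u, z, h0, h1, rfl⟩ := hp
  refine ⟨P (!b) u z, ⟨mem_K _ _ h0 h1, ?_⟩, ?_⟩
  · rw [← sq_eq_sq₀ dist_nonneg Metric.diam_nonneg, diam_sq]
    exact dist_partner b z h0 h1
  · rintro q ⟨⟨b', u', w, h0', h1', rfl⟩, hq⟩
    have h2 : dist (P b u z) (P b' u' w) ^ 2 = 2 * 124 ^ 2 := by rw [hq, diam_sq]
    obtain ⟨rfl, rfl, rfl⟩ := (dist_P h0 h1 h0' h1').2 h2
    rfl

theorem no_cover (S : Fin (124 * 124 + 1 + 1) → Set (EuclideanSpace ℝ (Fin (124 * 124 + 1))))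
    (hS : ∀ i, S i ⊆ K ∧ Metric.diam (S i) < Metric.diam K) (hc : K ⊆ ⋃ i, S i) : False := by
  classical
  have hu : ∀ k : ℕ, 0 < (1 : ℝ) / (k + 4) ∧ (1 : ℝ) / (k + 4) ≤ 1 / 4 := by
    intro k
    refine ⟨by positivity, ?_⟩
    apply one_div_le_one_div_of_le (by norm_num)
    have : (0 : ℝ) ≤ k := Nat.cast_nonneg k
    linarith
  have h1 : ∀ (k : ℕ) (z : Fin 122 → Bool), ∃ i, P true (1 / ((k : ℝ) + 4)) z ∈ S i := fun k z =>
    Set.mem_iUnion.1 (hc (mem_K true z (hu k).1 (hu k).2))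
  choose f hf using h1
  obtain ⟨F, hF⟩ := Finite.exists_infinite_fiber f
  have hcard : Fintype.card (Fin (124 * 124 + 1 + 1)) *
      (∑ k ∈ Finset.range 31, (124 : ℕ).choose k) < Fintype.card (Fin 122 → Bool) := by
    rw [Fintype.card_fin, Fintype.card_fun, Fintype.card_bool, Fintype.card_fin]
    exact lt_of_le_of_lt (Nat.mul_le_mul_right _ (by norm_num)) num
  obtain ⟨i, hi⟩ := Fintype.exists_lt_card_fiber_of_mul_lt_card F hcard
  have hb := FW_bound (n := 124) (p := 31) (ι := {z : Fin 122 → Bool // F z = i})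
    (fun z => ext z.1) (fun z => ip_self_zero z.1) (by
      intro z w hzw h0
      have hne : z.1 ≠ w.1 := fun h => hzw (Subtype.ext h)
      have h2 := ip_ext_zero hne h0
      have h3 : ip ℝ (ext z.1) (ext w.1) = 0 := by rw [ip_cast, h2]; simp
      set D' := Metric.diam (S i) with hD'
      have hlt : D' < Metric.diam K := (hS i).2
      have hD0 : 0 ≤ D' := Metric.diam_nonneg
      -- choose a large `k` in the infinite fibre
      obtain ⟨M, hM⟩ := exists_nat_gt (Metric.diam K / (Metric.diam K - D'))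
      obtain ⟨k, hkF, hkM⟩ := (Set.infinite_coe_iff.mp hF).exists_gt M
      have hkF' : f k = F := hkF
      have hz : P true (1 / ((k : ℝ) + 4)) z.1 ∈ S i := by
        have h := hf k z.1; rw [hkF', z.2] at h; exact h
      have hw : P true (1 / ((k : ℝ) + 4)) w.1 ∈ S i := by
        have h := hf k w.1; rw [hkF', w.2] at h; exact h
      have h5 := Metric.dist_le_diam_of_mem (bdd_K.subset (hS i).1) hz hw
      have h6 : dist (P true (1 / ((k : ℝ) + 4)) z.1) (P true (1 / ((k : ℝ) + 4)) w.1) ^ 2 =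
          (Metric.diam K * (1 - 1 / ((k : ℝ) + 4))) ^ 2 := by
        rw [mul_pow, diam_sq]
        unfold P
        rw [pt_dist, h3]
        simp only [sc, if_true]
        ring
      have h7 : 0 ≤ 1 - 1 / ((k : ℝ) + 4) := by
        have := (hu k).2
        linarith only [this]
      rw [sq_eq_sq₀ dist_nonneg (mul_nonneg Metric.diam_nonneg h7)] at h6
      rw [h6] at h5
      have h8 : Metric.diam K - D' ≤ Metric.diam K / (k + 4) := by
        rw [mul_sub, mul_one, mul_one_div] at h5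
        linarith only [h5]
      have h9 : 0 < Metric.diam K - D' := by linarith only [hlt]
      have hM' : Metric.diam K < M * (Metric.diam K - D') := (div_lt_iff₀ h9).mp hM
      have hk4 : (0 : ℝ) < (k : ℝ) + 4 := by
        have h12 : (0 : ℝ) ≤ (k : ℝ) := Nat.cast_nonneg k
        linarith only [h12]
      have h8' : (Metric.diam K - D') * ((k : ℝ) + 4) ≤ Metric.diam K := (le_div_iff₀ hk4).mp h8
      have h10 : (M : ℝ) < k := by exact_mod_cast hkM
      have h11 : (Metric.diam K - D') * M < (Metric.diam K - D') * (k + 4) :=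
        mul_lt_mul_of_pos_left (by linarith only [h10]) h9
      linarith only [h8', h11, hM'])
  rw [Fintype.card_subtype] at hb
  exact absurd hi (not_lt.2 hb)

theorem continuous_P (b : Bool) (z : Fin 122 → Bool) : Continuous fun u => P b u z := by
  have hv : Continuous vv := by
    unfold vv
    fun_prop
  unfold P pt
  refine (PiLp.continuous_toLp 2 _).comp (continuous_pi fun i => ?_)
  refine Fin.cases ?_ (fun k => ?_) i
  · cases b <;> simp only [Fin.cons_zero, hc, Bool.false_eq_true, if_false, if_true] <;> fun_prop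
  · cases b <;> simp only [Fin.cons_succ, sc, Bool.false_eq_true, if_false, if_true] <;> fun_prop

theorem hc_ne {b : Bool} {u : ℝ} (h0 : 0 < u) (h1 : u ≤ 1 / 4) : hc b u ≠ 0 := by
  obtain ⟨a1, a2, a3⟩ := sqrt2
  have h : 0 < vv u := by
    unfold vv
    apply Real.sqrt_pos.mpr
    have : 0 < u * (Real.sqrt 2 - u) := mul_pos h0 (by linarith)
    linarith [this]
  cases b <;> simp [hc, h.ne']

theorem hc_zero (b : Bool) : hc b 0 = 0 := by
  cases b <;> simp [hc, vv]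

/-- The example is a compact set with finitely many points removed. -/
theorem K_eq : ∃ C F : Set (EuclideanSpace ℝ (Fin (124 * 124 + 1))),
    IsCompact C ∧ F.Finite ∧ K = C \ F := by
  refine ⟨⋃ q : Bool × (Fin 122 → Bool), (fun u => P q.1 u q.2) '' Set.Icc 0 (1 / 4),
    Set.range fun q : Bool × (Fin 122 → Bool) => P q.1 0 q.2, ?_, Set.finite_range _, ?_⟩
  · exact isCompact_iUnion fun q => isCompact_Icc.image (continuous_P q.1 q.2)
  · ext p
    constructor
    · rintro ⟨b, u, z, h0, h1, rfl⟩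
      refine ⟨Set.mem_iUnion.mpr ⟨(b, z), u, ⟨h0.le, h1⟩, rfl⟩, ?_⟩
      rintro ⟨q, hq⟩
      have h := congrArg (fun x : EuclideanSpace ℝ (Fin (124 * 124 + 1)) => x 0) hq
      simp only [P, pt, Fin.cons_zero, hc_zero, mul_zero] at h
      exact hc_ne h0 h1 (by linarith only [h])
    · rintro ⟨hp, hF⟩
      obtain ⟨⟨b, z⟩, u, ⟨h0, h1⟩, rfl⟩ := Set.mem_iUnion.mp hp
      rcases h0.eq_or_lt with h | h
      · exact absurd ⟨(b, z), by simp only [← h]⟩ hF
      · exact ⟨b, u, z, h, h1, rfl⟩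

/-- There are a dimension `d` and a bounded set `K ⊂ ℝ^d` (a compact set with finitely many points
removed) such that each point of `K` lies in exactly one diameter of `K` and `(K, D(K))` is general,
but `K` cannot be partitioned into `d + 1` sets of smaller diameter. -/
theorem result : ∃ d : ℕ, 1 ≤ d ∧ ∃ K : Set (EuclideanSpace ℝ (Fin d)),
    Bornology.IsBounded K ∧ K.Nontrivial ∧
    (∃ C F : Set (EuclideanSpace ℝ (Fin d)), IsCompact C ∧ F.Finite ∧ K = C \ F) ∧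
    (∀ x ∈ K, ∃! y, y ∈ K ∧ dist x y = Metric.diam K) ∧
    IsGeneral K (Diameters K) ∧
    ¬ CanBePartitioned K (d + 1) := by
  refine ⟨124 * 124 + 1, by norm_num, K, bdd_K, ?_, K_eq, fun x hx => unique_partner hx, ?_, ?_⟩
  · refine ⟨_, mem_K true (fun _ => false) (by norm_num : (0:ℝ) < 1 / 4) le_rfl, _,
      mem_K (!true) (fun _ => false) (by norm_num : (0:ℝ) < 1 / 4) le_rfl, ?_⟩
    intro h
    have := dist_partner true (u := 1/4) (fun _ => false) (by norm_num) le_rfl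
    rw [← h, dist_self] at this
    norm_num at this
  · refine isGeneral_of_matching K diam_pos ?_
    intro x hx y hy z hz hxy hxz
    exact (unique_partner hx).unique ⟨hy, hxy⟩ ⟨hz, hxz⟩
  · rintro ⟨S, -, hK, hS⟩
    exact no_cover S (fun i => ⟨hK ▸ Set.subset_iUnion S i, hS i⟩) hK.le

end Pool.Agent.Results.MP_701da7_co.MatchingCounterexample
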